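import Pool.Agent.H684R3.USS.Stmts

set_option autoImplicit false

/-!
# Task D of the USS project: few `n` are non-generic
-/

namespace Pool.Agent.H138R3.USS

open Polynomial Finset Pool.Agent.H692R2.USS Pool.Agent.H684R3.USS
open scoped Classical

/-- the polynomials of degree at most `k` with coefficients in `(-B, B)`. -/
noncomputable def polys (k B : ℕ) : Finset ℤ[X] :=
  (Fintype.piFinset fun _ : Fin (k + 1) => Finset.Ioo (-(B : ℤ)) (B : ℤ)).image
    (fun c => ∑ i : Fin (k + 1), C (c i) * X ^ (i : ℕ))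

theorem card_polys (k B : ℕ) : (polys k B).card ≤ (2 * B) ^ (k + 1) := by
  refine Finset.card_image_le.trans ?_
  rw [Fintype.card_piFinset]
  simp only [Int.card_Ioo, Finset.prod_const, Finset.card_univ, Fintype.card_fin]
  apply Nat.pow_le_pow_left
  omega

theorem mem_polys {k B : ℕ} {f : ℤ[X]} (hd : f.natDegree ≤ k) (hc : ∀ i, |f.coeff i| < B) :
    f ∈ polys k B := by
  unfold polys
  rw [Finset.mem_image]
  refine ⟨fun i => f.coeff i, ?_, ?_⟩
  · rw [Fintype.mem_piFinset]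
    intro i
    rw [Finset.mem_Ioo]
    exact abs_lt.mp (hc i)
  · have h := f.as_sum_range' (k + 1) (by omega)
    rw [Finset.sum_range] at h
    rw [h]
    simp only [Polynomial.C_mul_X_pow_eq_monomial]
    conv_rhs => rw [← h]
    conv_lhs => rw [← h]
    exact h.symm

theorem card_roots_le {k p : ℕ} (hp : p.Prime) (f : ℤ[X]) (h0 : f ≠ 0) (hd : f.natDegree ≤ k)
    (hc : ∀ i, |f.coeff i| < p) :
    ((Finset.range p).filter (fun r : ℕ => (p : ℤ) ∣ f.eval (r : ℤ))).card ≤ k := by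
  have : Fact p.Prime := ⟨hp⟩
  set g : (ZMod p)[X] := f.map (Int.castRingHom (ZMod p)) with hg
  have hg0 : g ≠ 0 := by
    intro h
    apply h0
    ext i
    have hi : g.coeff i = 0 := by rw [h]; simp
    rw [hg, Polynomial.coeff_map] at hi
    have hi' : ((f.coeff i : ℤ) : ZMod p) = 0 := by simpa using hi
    rw [ZMod.intCast_zmod_eq_zero_iff_dvd] at hi'
    simpa using Int.eq_zero_of_abs_lt_dvd hi' (hc i)
  have h1 : ((Finset.range p).filter (fun r : ℕ => (p : ℤ) ∣ f.eval (r : ℤ))).card ≤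
      g.roots.toFinset.card := by
    apply Finset.card_le_card_of_injOn (fun r : ℕ => (r : ZMod p))
    · intro r hr
      rw [Finset.mem_coe, Finset.mem_filter] at hr
      rw [Finset.mem_coe, Multiset.mem_toFinset, Polynomial.mem_roots hg0, Polynomial.IsRoot.def]
      have h2 : ((f.eval (r : ℤ) : ℤ) : ZMod p) = 0 :=
        (ZMod.intCast_zmod_eq_zero_iff_dvd _ _).mpr hr.2
      have h3 : (r : ZMod p) = Int.castRingHom (ZMod p) (r : ℤ) := by simp
      show g.eval (r : ZMod p) = 0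
      rw [hg, h3, Polynomial.eval_map_apply]
      simpa using h2
    · intro a ha b hb hab
      rw [Finset.mem_coe, Finset.mem_filter, Finset.mem_range] at ha hb
      simp only at hab
      rw [ZMod.natCast_eq_natCast_iff'] at hab
      rwa [Nat.mod_eq_of_lt ha.1, Nat.mod_eq_of_lt hb.1] at hab
  refine h1.trans ((Multiset.toFinset_card_le _).trans ((Polynomial.card_roots' _).trans ?_))
  exact (Polynomial.natDegree_map_le).trans hd

theorem generic_mod {k p n : ℕ} : Generic k p n ↔ Generic k p (n % p) := by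
  have key : ∀ f : ℤ[X], (p : ℤ) ∣ f.eval (n : ℤ) ↔ (p : ℤ) ∣ f.eval ((n % p : ℕ) : ℤ) := by
    intro f
    have h1 : (n : ℤ) - ((n % p : ℕ) : ℤ) ∣ f.eval (n : ℤ) - f.eval ((n % p : ℕ) : ℤ) :=
      Polynomial.sub_dvd_eval_sub _ _ f
    have h2 : (p : ℤ) ∣ (n : ℤ) - ((n % p : ℕ) : ℤ) := by
      push_cast
      exact Int.dvd_self_sub_emod
    have h3 := h2.trans h1
    constructor
    · intro h
      have := dvd_sub h h3
      simpa using this
    · intro h
      have := dvd_add h h3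
      simpa using this
  unfold Generic
  constructor
  · intro h f h0 hd hc hdiv
    exact h f h0 hd hc ((key f).mpr hdiv)
  · intro h f h0 hd hc hdiv
    exact h f h0 hd hc ((key f).mp hdiv)

/-- number of bad residues mod `p` -/
theorem card_bad {k p : ℕ} (hp : p.Prime) :
    ((Finset.range p).filter (fun r => ¬ Generic k p r)).card ≤
      (2 * 2 ^ (Nat.log 2 p / (4 * (k + 1)))) ^ (k + 1) * k := by
  set B : ℕ := 2 ^ (Nat.log 2 p / (4 * (k + 1))) with hB
  have hBp : B ≤ p := by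
    refine le_trans (Nat.pow_le_pow_right (by norm_num) (Nat.div_le_self _ _)) ?_
    exact Nat.pow_log_le_self 2 hp.ne_zero
  have hsub : (Finset.range p).filter (fun r => ¬ Generic k p r) ⊆
      ((polys k B).filter (fun f => f ≠ 0 ∧ f.natDegree ≤ k ∧ ∀ i, |f.coeff i| < (B : ℤ))).biUnion
        (fun f => (Finset.range p).filter (fun r : ℕ => (p : ℤ) ∣ f.eval (r : ℤ))) := by
    intro r hr
    rw [Finset.mem_filter] at hr
    obtain ⟨hr1, hr2⟩ := hr
    unfold Generic at hr2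
    push Not at hr2
    obtain ⟨f, h0, hd, hc, hdiv⟩ := hr2
    have hc' : ∀ i, |f.coeff i| < (B : ℤ) := by
      intro i
      have := hc i
      rw [hB]
      push_cast
      exact this
    rw [Finset.mem_biUnion]
    exact ⟨f, Finset.mem_filter.mpr ⟨mem_polys hd hc', h0, hd, hc'⟩,
      Finset.mem_filter.mpr ⟨hr1, hdiv⟩⟩
  refine (Finset.card_le_card hsub).trans ?_
  refine (Finset.card_biUnion_le_card_mul _ _ k ?_).trans ?_
  · intro f hf
    rw [Finset.mem_filter] at hf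
    refine card_roots_le hp f hf.2.1 hf.2.2.1 (fun i => (hf.2.2.2 i).trans_le ?_)
    exact_mod_cast hBp
  · exact Nat.mul_le_mul_right _ ((Finset.card_filter_le _ _).trans (card_polys k B))

theorem card_crt {p M : ℕ} (hp : p.Prime) (hM : p * (p - 1) ∣ M) (P Q : ℕ → Prop) :
    ((Finset.range M).filter (fun n => P (n % (p - 1)) ∧ Q (n % p))).card ≤
      M / (p * (p - 1)) * (((Finset.range (p - 1)).filter P).card *
        ((Finset.range p).filter Q).card) := by
  have hp2 := hp.two_le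
  have hpos : 0 < p * (p - 1) := Nat.mul_pos hp.pos (by omega)
  have h : ((Finset.range M).filter (fun n => P (n % (p - 1)) ∧ Q (n % p))).card ≤
      (Finset.range (M / (p * (p - 1))) ×ˢ (((Finset.range (p - 1)).filter P) ×ˢ
        ((Finset.range p).filter Q))).card := by
    apply Finset.card_le_card_of_injOn (fun n => (n / (p * (p - 1)), (n % (p - 1), n % p)))
    · intro n hn
      rw [Finset.mem_coe, Finset.mem_filter, Finset.mem_range] at hn
      rw [Finset.mem_coe]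
      simp only [Finset.mem_product, Finset.mem_filter, Finset.mem_range]
      refine ⟨?_, ⟨Nat.mod_lt _ (by omega), hn.2.1⟩, Nat.mod_lt _ hp.pos, hn.2.2⟩
      rw [Nat.div_lt_iff_lt_mul hpos, Nat.div_mul_cancel hM]
      exact hn.1
    · intro a _ b _ hab
      simp only [Prod.mk.injEq] at hab
      obtain ⟨h1, h2, h3⟩ := hab
      have hco : Nat.Coprime p (p - 1) := by
        have := Nat.coprime_self_sub_right (m := 1) (n := p) (by omega)
        simpa using this
      have h4 : a ≡ b [MOD p * (p - 1)] := by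
        rw [← Nat.modEq_and_modEq_iff_modEq_mul hco]
        exact ⟨h3, h2⟩
      have h5 : a % (p * (p - 1)) = b % (p * (p - 1)) := h4
      rw [← Nat.div_add_mod a (p * (p - 1)), ← Nat.div_add_mod b (p * (p - 1)), h1, h5]
  refine h.trans ?_
  rw [Finset.card_product, Finset.card_product, Finset.card_range]

theorem card_one {k p M : ℕ} (hk : 1 ≤ k) (hp : p.Prime) (hM : p * (p - 1) ∣ M) :
    ((Finset.range M).filter (fun n => 4 * k * (k + 1) * (n % (p - 1) + 1) ≤ Nat.log 2 p ∧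
      ¬ Generic k p n)).card ≤
      M / (p * (p - 1)) * (Nat.log 2 p *
        ((2 * 2 ^ (Nat.log 2 p / (4 * (k + 1)))) ^ (k + 1) * k)) := by
  have h := card_crt hp hM (fun b => 4 * k * (k + 1) * (b + 1) ≤ Nat.log 2 p)
    (fun r => ¬ Generic k p r)
  have h0 : (Finset.range M).filter (fun n => 4 * k * (k + 1) * (n % (p - 1) + 1) ≤ Nat.log 2 p ∧
      ¬ Generic k p n) = (Finset.range M).filter (fun n =>
        4 * k * (k + 1) * (n % (p - 1) + 1) ≤ Nat.log 2 p ∧ ¬ Generic k p (n % p)) := by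
    apply Finset.filter_congr
    intro n _
    rw [generic_mod (n := n)]
  rw [h0]
  refine le_trans (le_of_eq ?_) (h.trans ?_)
  · congr
  apply Nat.mul_le_mul_left
  refine Nat.mul_le_mul ?_ ((le_of_eq ?_).trans (card_bad (k := k) hp))
  swap
  · congr
  have hs : (Finset.range (p - 1)).filter (fun b => 4 * k * (k + 1) * (b + 1) ≤ Nat.log 2 p) ⊆
      Finset.range (Nat.log 2 p) := by
    intro b hb
    rw [Finset.mem_filter] at hb
    rw [Finset.mem_range]
    have h1 : 1 ≤ 4 * k * (k + 1) := by nlinarith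
    have h2 : 1 * (b + 1) ≤ 4 * k * (k + 1) * (b + 1) := Nat.mul_le_mul_right _ h1
    omega
  have hs2 := Finset.card_le_card hs
  rw [Finset.card_range] at hs2
  refine (le_of_eq ?_).trans hs2
  congr

theorem real_one {k p M : ℕ} (hk : 1 ≤ k) (hp : p.Prime) (hM : p * (p - 1) ∣ M) :
    (((Finset.range M).filter (fun n => 4 * k * (k + 1) * (n % (p - 1) + 1) ≤ Nat.log 2 p ∧
      ¬ Generic k p n)).card : ℝ) ≤
      M * ((16 * k * 2 ^ (k + 1)) * (1 / (p : ℝ) ^ (3 / 2 : ℝ))) := by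
  have hp2 := hp.two_le
  have hpR : (2 : ℝ) ≤ p := by exact_mod_cast hp2
  have hp0 : (0 : ℝ) < p := by linarith
  have h1 : (((Finset.range M).filter (fun n => 4 * k * (k + 1) * (n % (p - 1) + 1) ≤ Nat.log 2 p ∧
      ¬ Generic k p n)).card : ℝ) ≤ ((M / (p * (p - 1)) : ℕ) : ℝ) * ((Nat.log 2 p : ℝ) *
        ((2 * 2 ^ (Nat.log 2 p / (4 * (k + 1)))) ^ (k + 1) * k)) := by
    exact_mod_cast card_one hk hp hM
  refine h1.trans ?_
  -- the three factors
  have hA : ((M / (p * (p - 1)) : ℕ) : ℝ) ≤ M * (2 / (p : ℝ) ^ 2) := by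
    have h2 : ((M / (p * (p - 1)) : ℕ) : ℝ) ≤ (M : ℝ) / ((p * (p - 1) : ℕ) : ℝ) := Nat.cast_div_le
    refine h2.trans ?_
    rw [div_eq_mul_inv]
    apply mul_le_mul_of_nonneg_left _ (Nat.cast_nonneg M)
    rw [Nat.cast_mul, Nat.cast_sub (by omega : 1 ≤ p), Nat.cast_one]
    have hpm : (0 : ℝ) < (p : ℝ) - 1 := by linarith
    rw [inv_eq_one_div, div_le_div_iff₀ (by positivity) (by positivity)]
    nlinarith
  have hB : (Nat.log 2 p : ℝ) ≤ 8 * (p : ℝ) ^ (1 / 4 : ℝ) := by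
    have h2 : (Nat.log 2 p : ℝ) ≤ Real.logb 2 p := by
      have := Real.natLog_le_logb p 2
      exact_mod_cast this
    have h3 : Real.log p ≤ (p : ℝ) ^ (1 / 4 : ℝ) / (1 / 4 : ℝ) :=
      Real.log_le_rpow_div hp0.le (by norm_num)
    refine h2.trans ?_
    have hl2 : (1 / 2 : ℝ) < Real.log 2 := by
      have := Real.log_two_gt_d9
      linarith
    rw [Real.logb, div_le_iff₀ (by linarith)]
    have h4 : 0 ≤ (p : ℝ) ^ (1 / 4 : ℝ) := by positivity
    nlinarith
  have hC : ((2 * 2 ^ (Nat.log 2 p / (4 * (k + 1)))) ^ (k + 1) : ℝ) ≤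
      2 ^ (k + 1) * (p : ℝ) ^ (1 / 4 : ℝ) := by
    rw [mul_pow]
    apply mul_le_mul_of_nonneg_left _ (by positivity)
    have h5 : ((2 ^ (Nat.log 2 p / (4 * (k + 1)))) ^ (k + 1)) ^ 4 ≤ p := by
      rw [← pow_mul, ← pow_mul]
      refine le_trans (Nat.pow_le_pow_right (by norm_num) ?_) (Nat.pow_log_le_self 2 hp.ne_zero)
      have := Nat.div_mul_le_self (Nat.log 2 p) (4 * (k + 1))
      nlinarith
    have h6 : (((2 : ℝ) ^ (Nat.log 2 p / (4 * (k + 1)))) ^ (k + 1)) ^ 4 ≤ (p : ℝ) := by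
      exact_mod_cast h5
    have h7 : (0 : ℝ) ≤ ((2 : ℝ) ^ (Nat.log 2 p / (4 * (k + 1)))) ^ (k + 1) := by positivity
    calc ((2 : ℝ) ^ (Nat.log 2 p / (4 * (k + 1)))) ^ (k + 1)
        = ((((2 : ℝ) ^ (Nat.log 2 p / (4 * (k + 1)))) ^ (k + 1)) ^ 4) ^ (1 / 4 : ℝ) := by
          rw [← Real.rpow_natCast _ 4, ← Real.rpow_mul h7]
          norm_num
      _ ≤ (p : ℝ) ^ (1 / 4 : ℝ) := Real.rpow_le_rpow (by positivity) h6 (by norm_num)
  have hk0 : (0 : ℝ) ≤ k := Nat.cast_nonneg k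
  have hq : (0 : ℝ) ≤ (p : ℝ) ^ (1 / 4 : ℝ) := by positivity
  calc ((M / (p * (p - 1)) : ℕ) : ℝ) * ((Nat.log 2 p : ℝ) *
        ((2 * 2 ^ (Nat.log 2 p / (4 * (k + 1)))) ^ (k + 1) * k))
      ≤ (M * (2 / (p : ℝ) ^ 2)) * ((8 * (p : ℝ) ^ (1 / 4 : ℝ)) *
        ((2 ^ (k + 1) * (p : ℝ) ^ (1 / 4 : ℝ)) * k)) := by
        gcongr
    _ = M * ((16 * k * 2 ^ (k + 1)) * (1 / (p : ℝ) ^ (3 / 2 : ℝ))) := by
        have h8 : (p : ℝ) ^ (3 / 2 : ℝ) * ((p : ℝ) ^ (1 / 4 : ℝ) * (p : ℝ) ^ (1 / 4 : ℝ)) =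
            (p : ℝ) ^ 2 := by
          rw [← Real.rpow_add hp0, ← Real.rpow_add hp0, ← Real.rpow_natCast]
          norm_num
        have h9 : (p : ℝ) ^ (3 / 2 : ℝ) ≠ 0 := by positivity
        rw [← h8]
        field_simp
        ring

theorem taskD : TaskD := by
  intro k hk ε hε
  set c : ℝ := 16 * k * 2 ^ (k + 1) with hc
  have hc0 : 0 < c := by
    have : (1 : ℝ) ≤ k := by exact_mod_cast hk
    positivity
  set g : ℕ → ℝ := fun n => 1 / (n : ℝ) ^ (3 / 2 : ℝ) with hg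
  have hsum : Summable g := Real.summable_one_div_nat_rpow.mpr (by norm_num)
  have hg0 : ∀ n, 0 ≤ g n := by
    intro n
    simp only [hg]
    positivity
  have ht := tendsto_sum_nat_add g
  have hev := (ht.eventually (gt_mem_nhds (show (0 : ℝ) < ε / c by positivity))).exists
  obtain ⟨x, hx⟩ := hev
  refine ⟨x, fun L M hM hdiv => ?_⟩
  have hsub : (Finset.range M).filter (fun n => ∃ p, p.Prime ∧ x ≤ p ∧ p < 2 ^ L ∧
      4 * k * (k + 1) * (n % (p - 1) + 1) ≤ Nat.log 2 p ∧ ¬ Generic k p n) ⊆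
      ((Finset.Ico x (2 ^ L)).filter Nat.Prime).biUnion (fun p => (Finset.range M).filter
        (fun n => 4 * k * (k + 1) * (n % (p - 1) + 1) ≤ Nat.log 2 p ∧ ¬ Generic k p n)) := by
    intro n hn
    rw [Finset.mem_filter] at hn
    obtain ⟨hn1, p, hp, hxp, hpL, h1, h2⟩ := hn
    rw [Finset.mem_biUnion]
    exact ⟨p, Finset.mem_filter.mpr ⟨Finset.mem_Ico.mpr ⟨hxp, hpL⟩, hp⟩,
      Finset.mem_filter.mpr ⟨hn1, h1, h2⟩⟩
  have h1 : (((Finset.range M).filter (fun n => ∃ p, p.Prime ∧ x ≤ p ∧ p < 2 ^ L ∧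
      4 * k * (k + 1) * (n % (p - 1) + 1) ≤ Nat.log 2 p ∧ ¬ Generic k p n)).card : ℝ) ≤
      ∑ p ∈ (Finset.Ico x (2 ^ L)).filter Nat.Prime, (((Finset.range M).filter
        (fun n => 4 * k * (k + 1) * (n % (p - 1) + 1) ≤ Nat.log 2 p ∧
          ¬ Generic k p n)).card : ℝ) := by
    exact_mod_cast (Finset.card_le_card hsub).trans Finset.card_biUnion_le
  have h2 : ∑ p ∈ (Finset.Ico x (2 ^ L)).filter Nat.Prime, (((Finset.range M).filter
        (fun n => 4 * k * (k + 1) * (n % (p - 1) + 1) ≤ Nat.log 2 p ∧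
          ¬ Generic k p n)).card : ℝ) ≤
      ∑ p ∈ (Finset.Ico x (2 ^ L)).filter Nat.Prime, M * (c * g p) := by
    apply Finset.sum_le_sum
    intro p hp
    rw [Finset.mem_filter, Finset.mem_Ico] at hp
    exact real_one hk hp.2 (hdiv p hp.2 hp.1.2)
  have h3 : ∑ p ∈ (Finset.Ico x (2 ^ L)).filter Nat.Prime, (M : ℝ) * (c * g p) ≤
      ∑ p ∈ Finset.Ico x (2 ^ L), M * (c * g p) := by
    apply Finset.sum_le_sum_of_subset_of_nonneg (Finset.filter_subset _ _)
    intro p _ _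
    have := hg0 p
    positivity
  have h4 : ∑ p ∈ Finset.Ico x (2 ^ L), (M : ℝ) * (c * g p) =
      M * (c * ∑ p ∈ Finset.Ico x (2 ^ L), g p) := by
    rw [Finset.mul_sum, Finset.mul_sum]
  have h5 : ∑ p ∈ Finset.Ico x (2 ^ L), g p ≤ ∑' i, g (i + x) := by
    rw [Finset.sum_Ico_eq_sum_range]
    have h6 : ∀ i, g (x + i) = g (i + x) := fun i => by rw [add_comm]
    simp only [h6]
    exact ((summable_nat_add_iff x).mpr hsum).sum_le_tsum _ (fun i _ => hg0 _)
  have h7 : c * ∑ p ∈ Finset.Ico x (2 ^ L), g p ≤ ε := by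
    have h8 : ∑ p ∈ Finset.Ico x (2 ^ L), g p ≤ ε / c := h5.trans hx.le
    calc c * ∑ p ∈ Finset.Ico x (2 ^ L), g p ≤ c * (ε / c) :=
          mul_le_mul_of_nonneg_left h8 hc0.le
      _ = ε := by field_simp
  calc (((Finset.range M).filter (fun n => ∃ p, p.Prime ∧ x ≤ p ∧ p < 2 ^ L ∧
      4 * k * (k + 1) * (n % (p - 1) + 1) ≤ Nat.log 2 p ∧ ¬ Generic k p n)).card : ℝ)
      ≤ M * (c * ∑ p ∈ Finset.Ico x (2 ^ L), g p) := (h1.trans (h2.trans h3)).trans h4.le
    _ ≤ M * ε := mul_le_mul_of_nonneg_left h7 (Nat.cast_nonneg M)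
    _ = ε * M := mul_comm _ _

end Pool.Agent.H138R3.USS
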